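import Pool.Agent.Y63.NV.Free2

/-!
# Direct powers of groups without normal subgroups of index `p` and normal `p`-subgroups
-/

set_option autoImplicit false

namespace Pool.Agent.V7H23.AW

open Pool.Agent.Y63.NV

theorem reduced_pow {p : ℕ} (hp : p.Prime) {G : Type} [Group G] (h : Reduced p G) (n : ℕ) :
    Reduced p (Fin n → G) := by
  refine ⟨fun N hN hi => ?_, fun M hM hMp => ?_⟩
  · have h1 : ∀ (i : Fin n) (x : G), Pi.mulSingle i x ∈ N := by
      intro i x
      set f : G →* (Fin n → G) := MonoidHom.mulSingle (fun _ : Fin n => G) i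
      have h2 : (N.comap f).index ∣ p := by
        rw [Subgroup.index_comap, ← hi]
        exact Subgroup.relIndex_dvd_index_of_normal N f.range
      rcases (Nat.dvd_prime hp).1 h2 with h3 | h3
      · rw [Subgroup.index_eq_one] at h3
        have h4 : x ∈ N.comap f := by
          rw [h3]
          trivial
        exact h4
      · exact absurd h3 (h.perfect _ (hN.comap f))
    have h2 : N = ⊤ := by
      rw [Subgroup.eq_top_iff']
      intro x
      exact Subgroup.pi_mem_of_mulSingle_mem x fun i => h1 i (x i)
    rw [h2, Subgroup.index_top] at hi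
    exact hp.one_lt.ne hi
  · rw [Subgroup.eq_bot_iff_forall]
    intro x hx
    funext i
    have h1 : M.map (Pi.evalMonoidHom (fun _ : Fin n => G) i) = ⊥ := by
      refine h.radical _ (hM.map _ ?_) (hMp.map _)
      intro y
      exact ⟨fun _ => y, rfl⟩
    have h2 : x i ∈ M.map (Pi.evalMonoidHom (fun _ : Fin n => G) i) := ⟨x, hx, rfl⟩
    rw [h1, Subgroup.mem_bot] at h2
    exact h2

end Pool.Agent.V7H23.AW
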