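import Pool.Agent.N85.WM.Val
import Pool.Agent.Y275.NV.Wed

/-!
# Every block contains an irreducible trace
-/

set_option autoImplicit false

open scoped Classical BigOperators

noncomputable section

namespace Pool.Agent.V7H23.AW

open Pool.Agent.Y63.NV Pool.Agent.N85.WM
open Pool.Agent.Y63.NV.B286 (conv_class single_class cp cp_class block_cp)
open Pool.Agent.Y705.NV (opT opT_scalar trace_opT)
open Pool.Agent.Y275.NV (rp rp_apply rp_char rp_irr)

section alg

variable {F : Type} [Field F] {G : Type} [Group G] [Fintype G]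

/-- a function as an element of the group algebra -/
def toA (f : G → F) : MonoidAlgebra F G := ∑ g, MonoidAlgebra.single g (f g)

theorem toA_coeff (f : G → F) (g : G) : (toA f).coeff g = f g := by
  unfold toA
  rw [MonoidAlgebra.coeff_sum]
  simp only [MonoidAlgebra.coeff_single]
  rw [Finsupp.finsetSum_apply, Finset.sum_eq_single g]
  · exact Finsupp.single_eq_same
  · intro b _ hb
    exact Finsupp.single_eq_of_ne hb.symm
  · intro h
    exact absurd (Finset.mem_univ g) h

theorem toA_eq_zero {f : G → F} (h : toA f = 0) : f = 0 := by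
  funext g
  rw [← toA_coeff f g, h]
  rfl

theorem toA_one : toA (Pi.single (1 : G) (1 : F)) = 1 := by
  unfold toA
  rw [Finset.sum_eq_single (1 : G)]
  · rw [Pi.single_eq_same]
    rfl
  · intro b _ hb
    rw [Pi.single_eq_of_ne hb, MonoidAlgebra.single_zero]
  · intro h
    exact absurd (Finset.mem_univ _) h

theorem toA_conv (f g : G → F) : toA (conv f g) = toA f * toA g := by
  unfold toA conv
  simp only [finsum_eq_sum_of_fintype]
  rw [Finset.sum_mul_sum]
  have h1 : ∀ x : G, MonoidAlgebra.single x (∑ y, f y * g (y⁻¹ * x)) =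
      ∑ y, MonoidAlgebra.single x (f y * g (y⁻¹ * x)) := by
    intro x
    exact map_sum (MonoidAlgebra.singleAddHom x) _ _
  rw [Finset.sum_congr rfl fun x _ => h1 x, Finset.sum_comm]
  refine Finset.sum_congr rfl fun y _ => ?_
  rw [← Equiv.sum_comp (Equiv.mulLeft y)]
  refine Finset.sum_congr rfl fun x _ => ?_
  rw [Equiv.coe_mulLeft, inv_mul_cancel_left, MonoidAlgebra.single_mul_single]

theorem toA_cp (f : G → F) (n : ℕ) : toA (cp f n) = toA f ^ n := by
  induction n with
  | zero => rw [pow_zero]; exact toA_one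
  | succ n ih =>
    change toA (conv f (cp f n)) = _
    rw [toA_conv, ih, pow_succ']

theorem pi_toA {d : ℕ} (π : MonoidAlgebra F G →ₐ[F] Matrix (Fin d) (Fin d) F) (f : G → F)
    (v : Fin d → F) : (π (toA f)).mulVec v = opT (rp π) f v := by
  unfold toA opT
  rw [map_sum, Matrix.sum_mulVec, LinearMap.sum_apply]
  refine Finset.sum_congr rfl fun g _ => ?_
  rw [LinearMap.smul_apply, rp_apply]
  have h1 : MonoidAlgebra.single g (f g) = f g • MonoidAlgebra.single g (1 : F) := by
    rw [MonoidAlgebra.smul_single, smul_eq_mul, mul_one]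
  rw [h1, map_smul, Matrix.smul_mulVec]

end alg

variable {F : Type} [Field F] [IsAlgClosed F] {G : Type} [Group G] [Finite G]

/-- an element which is zero in all irreducible representations is nilpotent -/
theorem nil_of {e : G → F} (he : IsClassFun e)
    (h : ∀ φ : {φ : G → F // IsIrrTrace φ}, blkOf φ e = 0) : ∃ n, cp e n = 0 := by
  let _ : Fintype G := Fintype.ofFinite G
  have : FiniteDimensional F (MonoidAlgebra F G) := by
    infer_instance
  have : IsArtinianRing (MonoidAlgebra F G) := IsArtinianRing.of_finite F (MonoidAlgebra F G)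
  have : IsSemisimpleRing (MonoidAlgebra F G ⧸ Ring.jacobson (MonoidAlgebra F G)) :=
    IsSemiprimaryRing.isSemisimpleRing
  have : FiniteDimensional F (MonoidAlgebra F G ⧸ Ring.jacobson (MonoidAlgebra F G)) :=
    Module.Finite.of_surjective
      (Ideal.Quotient.mkₐ F (Ring.jacobson (MonoidAlgebra F G))).toLinearMap
      (Ideal.Quotient.mkₐ_surjective F _)
  obtain ⟨n, d, hd, ⟨E⟩⟩ := IsSemisimpleRing.exists_algEquiv_pi_matrix_of_isAlgClosed F
    (MonoidAlgebra F G ⧸ Ring.jacobson (MonoidAlgebra F G))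
  let π : MonoidAlgebra F G →ₐ[F] (Π i, Matrix (Fin (d i)) (Fin (d i)) F) :=
    E.toAlgHom.comp (Ideal.Quotient.mkₐ F (Ring.jacobson (MonoidAlgebra F G)))
  have hπs : Function.Surjective π :=
    E.surjective.comp (Ideal.Quotient.mkₐ_surjective F _)
  let πi : ∀ i, MonoidAlgebra F G →ₐ[F] Matrix (Fin (d i)) (Fin (d i)) F := fun i =>
    (Pi.evalAlgHom F (fun i => Matrix (Fin (d i)) (Fin (d i)) F) i).comp π
  have hπis : ∀ i, Function.Surjective (πi i) := by
    intro i X
    obtain ⟨a, ha⟩ := hπs (Pi.single i X)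
    refine ⟨a, ?_⟩
    change π a i = X
    rw [ha, Pi.single_eq_same]
  have h0 : ∀ i, πi i (toA e) = 0 := by
    intro i
    have := hd i
    have hirr := rp_irr (πi i) (hπis i)
    obtain ⟨c, hc⟩ := opT_scalar (rp (πi i)) hirr he
    have hφ : IsIrrTrace (rp (πi i)).character :=
      ⟨Fin (d i) → F, inferInstance, inferInstance, inferInstance, rp (πi i), hirr, rfl⟩
    obtain ⟨x, hx⟩ := (schur' F G _ hφ).1
    have h1 := blkOf_spec ⟨_, hφ⟩ he x
    rw [h, zero_mul, finsum_eq_sum_of_fintype] at h1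
    have h2 := trace_opT (rp (πi i)) e x
    rw [hc, smul_mul_assoc, one_mul, map_smul, smul_eq_mul] at h2
    have h3 : c * (rp (πi i)).character x = 0 := by
      rw [← h1]
      exact h2.symm
    have h4 : c = 0 := by
      rcases mul_eq_zero.1 h3 with h5 | h5
      · exact h5
      · exact absurd h5 hx
    have h5 : ∀ v, (πi i (toA e)).mulVec v = 0 := by
      intro v
      rw [pi_toA, hc, h4, zero_smul]
      rfl
    exact Matrix.ext_of_mulVec_single fun j => by rw [h5, Matrix.zero_mulVec]
  have h1 : π (toA e) = 0 := funext fun i => h0 i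
  have h2 : toA e ∈ Ring.jacobson (MonoidAlgebra F G) := by
    have h3 : Ideal.Quotient.mkₐ F (Ring.jacobson (MonoidAlgebra F G)) (toA e) = 0 := by
      have h2 : E (Ideal.Quotient.mkₐ F (Ring.jacobson (MonoidAlgebra F G)) (toA e)) = 0 := h1
      exact (map_eq_zero_iff E E.injective).1 h2
    exact Ideal.Quotient.eq_zero_iff_mem.1 h3
  obtain ⟨m, hm⟩ := IsSemiprimaryRing.isNilpotent (R := MonoidAlgebra F G)
  have h3 := Ideal.pow_mem_pow h2 m
  rw [hm] at h3
  refine ⟨m, toA_eq_zero ?_⟩
  rw [toA_cp]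
  exact h3

/-- **Every block contains an irreducible trace.** -/
theorem exists_irr {B : (G → F) → F} (hB : IsBlock B) :
    ∃ φ : {φ : G → F // IsIrrTrace φ}, BEq (blkOf φ) B := by
  by_contra hcon
  push Not at hcon
  have : Fintype {φ : G → F // IsIrrTrace φ} := Fintype.ofFinite _
  obtain ⟨e, he, h1, h2⟩ := sep_list hB
    ((Finset.univ : Finset {φ : G → F // IsIrrTrace φ}).toList.map blkOf) (by
      intro B' hB'
      obtain ⟨φ, -, rfl⟩ := List.mem_map.1 hB'
      exact ⟨blkOf_block φ, fun h => hcon φ h.symm⟩)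
  obtain ⟨n, hn⟩ := nil_of he fun φ => h2 _ (List.mem_map.2 ⟨φ, by simp, rfl⟩)
  have h3 := block_cp hB he n
  rw [hn, h1, one_pow] at h3
  have h0 : IsClassFun (0 : G → F) := fun _ _ => rfl
  have h4 := hB.smul 0 0 h0
  rw [zero_smul, zero_mul] at h4
  rw [h4] at h3
  exact zero_ne_one h3

theorem numIrrBlock_pos {B : (G → F) → F} (hB : IsBlock B) : 0 < numIrrBlock B := by
  rw [numIrrBlock_eq]
  obtain ⟨φ, hφ⟩ := exists_irr hB
  have : Nonempty {φ : {φ : G → F // IsIrrTrace φ} // BEq (blkOf φ) B} := ⟨⟨φ, hφ⟩⟩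
  exact Nat.card_pos

end Pool.Agent.V7H23.AW
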