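import Mathlib

/-!
# Concentration of the sums of independent choices (Littlewood-Offord)

For a function `X` on a finite set `S` which is not constant, the share of the `n`-tuples `f` with
`|∑ X (f i)| ≤ t` is at most `K (1 + t) / √(n + 1)`.
-/

set_option autoImplicit false

noncomputable section

namespace Pool.Agent.V7H23.AW

open Finset

/-- the central binomial coefficients -/
theorem cb_bound (m : ℕ) : (Nat.centralBinom m) ^ 2 * (3 * m + 1) ≤ 16 ^ m := by
  induction m with
  | zero => simp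
  | succ m ih =>
    have h := Nat.succ_mul_centralBinom_succ m
    have h1 : (m + 1) ^ 2 * ((Nat.centralBinom (m + 1)) ^ 2 * (3 * (m + 1) + 1)) ≤
        (m + 1) ^ 2 * 16 ^ (m + 1) := by
      have h2 : (m + 1) ^ 2 * ((Nat.centralBinom (m + 1)) ^ 2 * (3 * (m + 1) + 1)) =
          ((m + 1) * Nat.centralBinom (m + 1)) ^ 2 * (3 * m + 4) := by ring
      rw [h2, h]
      have h3 : (2 * (2 * m + 1) * Nat.centralBinom m) ^ 2 * (3 * m + 4) ≤
          16 * (m + 1) ^ 2 * ((Nat.centralBinom m) ^ 2 * (3 * m + 1)) := by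
        have h4 : (2 * m + 1) ^ 2 * (3 * m + 4) ≤ 4 * (m + 1) ^ 2 * (3 * m + 1) := by
          nlinarith [sq_nonneg m]
        calc (2 * (2 * m + 1) * Nat.centralBinom m) ^ 2 * (3 * m + 4)
            = 4 * (Nat.centralBinom m) ^ 2 * ((2 * m + 1) ^ 2 * (3 * m + 4)) := by ring
          _ ≤ 4 * (Nat.centralBinom m) ^ 2 * (4 * (m + 1) ^ 2 * (3 * m + 1)) :=
              Nat.mul_le_mul_left _ h4
          _ = _ := by ring
      calc (2 * (2 * m + 1) * Nat.centralBinom m) ^ 2 * (3 * m + 4)
          ≤ 16 * (m + 1) ^ 2 * ((Nat.centralBinom m) ^ 2 * (3 * m + 1)) := h3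
        _ ≤ 16 * (m + 1) ^ 2 * 16 ^ m := Nat.mul_le_mul_left _ ih
        _ = (m + 1) ^ 2 * 16 ^ (m + 1) := by ring
    exact Nat.le_of_mul_le_mul_left h1 (by positivity)

/-- all binomial coefficients -/
theorem choose_bound (r k : ℕ) : (Nat.choose r k) ^ 2 * (r + 1) ≤ 4 ^ r := by
  have h0 : Nat.choose r k ≤ Nat.choose r (r / 2) := Nat.choose_le_middle k r
  have h1 : (Nat.choose r (r / 2)) ^ 2 * (r + 1) ≤ 4 ^ r := by
    rcases Nat.even_or_odd' r with ⟨m, rfl | rfl⟩
    · have e : 2 * m / 2 = m := by omega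
      rw [e, ← Nat.centralBinom_eq_two_mul_choose]
      calc (Nat.centralBinom m) ^ 2 * (2 * m + 1) ≤ (Nat.centralBinom m) ^ 2 * (3 * m + 1) :=
            Nat.mul_le_mul_left _ (by omega)
        _ ≤ 16 ^ m := cb_bound m
        _ = 4 ^ (2 * m) := by rw [pow_mul]; norm_num
    · have e : (2 * m + 1) / 2 = m := by omega
      rw [e]
      have h2 : Nat.centralBinom (m + 1) = 2 * Nat.choose (2 * m + 1) m := by
        rw [Nat.centralBinom_eq_two_mul_choose]
        have h3 : 2 * (m + 1) = (2 * m + 1) + 1 := by ring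
        rw [h3, Nat.choose_succ_succ]
        have h4 : Nat.choose (2 * m + 1) (m + 1) = Nat.choose (2 * m + 1) m := by
          rw [← Nat.choose_symm_of_eq_add]
          omega
        rw [h4]; ring
      have h5 := cb_bound (m + 1)
      rw [h2] at h5
      have h6 : 4 * ((Nat.choose (2 * m + 1) m) ^ 2 * (2 * m + 1 + 1)) ≤ 4 * 4 ^ (2 * m + 1) := by
        calc 4 * ((Nat.choose (2 * m + 1) m) ^ 2 * (2 * m + 1 + 1))
            ≤ (2 * Nat.choose (2 * m + 1) m) ^ 2 * (3 * (m + 1) + 1) := by
              have : (2 * Nat.choose (2 * m + 1) m) ^ 2 * (3 * (m + 1) + 1) =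
                  4 * ((Nat.choose (2 * m + 1) m) ^ 2 * (3 * m + 4)) := by ring
              rw [this]
              exact Nat.mul_le_mul_left _ (Nat.mul_le_mul_left _ (by omega))
          _ ≤ 16 ^ (m + 1) := h5
          _ = 4 * 4 ^ (2 * m + 1) := by
              have : (16 : ℕ) ^ (m + 1) = 4 ^ (2 * (m + 1)) := by rw [pow_mul]; norm_num
              rw [this]; ring
      exact Nat.le_of_mul_le_mul_left h6 (by norm_num)
  exact (Nat.mul_le_mul_right _ (Nat.pow_le_pow_left h0 2)).trans h1

theorem choose_real (r k : ℕ) : (Nat.choose r k : ℝ) ≤ 2 ^ r / √((r : ℝ) + 1) := by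
  have h : ((Nat.choose r k : ℝ)) ^ 2 * ((r : ℝ) + 1) ≤ 4 ^ r := by
    exact_mod_cast choose_bound r k
  have hp : (0 : ℝ) < (r : ℝ) + 1 := by positivity
  rw [le_div_iff₀ (Real.sqrt_pos.2 hp)]
  refine (pow_le_pow_iff_left₀ (by positivity) (by positivity) two_ne_zero).1 ?_
  rw [mul_pow, Real.sq_sqrt hp.le]
  calc _ ≤ (4 : ℝ) ^ r := h
    _ = (2 ^ r) ^ 2 := by rw [← pow_mul, mul_comm r 2, pow_mul]; norm_num

/-- few natural numbers in a short interval -/
theorem card_int (A : Finset ℕ) (z δ t : ℝ) (hδ : δ ≠ 0) (ht : 0 ≤ t)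
    (hA : ∀ k ∈ A, |z + k * δ| ≤ t) : (A.card : ℝ) ≤ 2 * t / |δ| + 1 := by
  have hδ' : 0 < |δ| := abs_pos.2 hδ
  by_cases hne : A.Nonempty
  · set m := A.min' hne
    set M := A.max' hne
    have hmM : m ≤ M := A.min'_le_max' hne
    have h1 : A ⊆ Finset.Icc m M := fun k hk => Finset.mem_Icc.2 ⟨A.min'_le k hk, A.le_max' k hk⟩
    have h2 : A.card ≤ M + 1 - m := by
      have := Finset.card_le_card h1
      rwa [Nat.card_Icc] at this
    have h3 : (A.card : ℝ) ≤ (M : ℝ) - m + 1 := by
      have : (A.card : ℝ) ≤ ((M + 1 - m : ℕ) : ℝ) := by exact_mod_cast h2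
      rw [Nat.cast_sub (by omega)] at this
      push_cast at this
      linarith
    have h4 := hA m (A.min'_mem hne)
    have h5 := hA M (A.max'_mem hne)
    have h6 : ((M : ℝ) - m) * |δ| ≤ 2 * t := by
      have h7 : ((M : ℝ) - m) * |δ| = |(z + M * δ) - (z + m * δ)| := by
        have : (z + M * δ) - (z + m * δ) = ((M : ℝ) - m) * δ := by ring
        have h0 : (m : ℝ) ≤ M := by exact_mod_cast hmM
        rw [this, abs_mul, abs_of_nonneg (by linarith : (0 : ℝ) ≤ (M : ℝ) - m)]
      rw [h7]
      calc _ ≤ |z + M * δ| + |z + m * δ| := abs_sub _ _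
        _ ≤ t + t := add_le_add h5 h4
        _ = 2 * t := by ring
    have h8 : (M : ℝ) - m ≤ 2 * t / |δ| := by rwa [le_div_iff₀ hδ']
    linarith
  · rw [Finset.not_nonempty_iff_eq_empty] at hne
    rw [hne, Finset.card_empty, Nat.cast_zero]
    positivity

/-- few subsets with a prescribed size up to `t` -/
theorem card_sub {ι : Type*} (R : Finset ι) (z δ t : ℝ) (hδ : δ ≠ 0) (ht : 0 ≤ t) :
    ((R.powerset.filter fun T => |z + (T.card : ℝ) * δ| ≤ t).card : ℝ) ≤
      (2 * t / |δ| + 1) * (2 ^ R.card / √((R.card : ℝ) + 1)) := by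
  classical
  set A : Finset ℕ := (range (R.card + 1)).filter fun k => |z + (k : ℝ) * δ| ≤ t with hA
  have h1 : (R.powerset.filter fun T => |z + (T.card : ℝ) * δ| ≤ t) ⊆
      A.biUnion fun k => R.powersetCard k := by
    intro T hT
    rw [Finset.mem_filter, Finset.mem_powerset] at hT
    rw [Finset.mem_biUnion]
    refine ⟨T.card, ?_, ?_⟩
    · rw [hA, Finset.mem_filter, Finset.mem_range]
      exact ⟨Nat.lt_succ_of_le (Finset.card_le_card hT.1), hT.2⟩
    · rw [Finset.mem_powersetCard]
      exact ⟨hT.1, rfl⟩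
  have h2 : ((R.powerset.filter fun T => |z + (T.card : ℝ) * δ| ≤ t).card : ℝ) ≤
      ∑ k ∈ A, (Nat.choose R.card k : ℝ) := by
    have h3 := (Finset.card_le_card h1).trans Finset.card_biUnion_le
    have h4 : ∑ k ∈ A, (R.powersetCard k).card = ∑ k ∈ A, Nat.choose R.card k :=
      Finset.sum_congr rfl fun k _ => Finset.card_powersetCard k R
    rw [h4] at h3
    exact_mod_cast h3
  refine h2.trans ?_
  calc ∑ k ∈ A, (Nat.choose R.card k : ℝ) ≤ ∑ _k ∈ A, (2 ^ R.card / √((R.card : ℝ) + 1)) :=
        Finset.sum_le_sum fun k _ => choose_real _ _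
    _ = (A.card : ℝ) * (2 ^ R.card / √((R.card : ℝ) + 1)) := by
        rw [Finset.sum_const, nsmul_eq_mul]
    _ ≤ _ := by
        refine mul_le_mul_of_nonneg_right ?_ (by positivity)
        exact card_int A z δ t hδ ht fun k hk => (Finset.mem_filter.1 hk).2

section lo

variable {S : Type*} [Fintype S] [DecidableEq S]

/-- the weights -/
def wt (a b x : S) : ℝ := if x = a then 2 else if x = b then 0 else 1

theorem wt_nonneg (a b x : S) : 0 ≤ wt a b x := by
  unfold wt; split_ifs <;> norm_num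

theorem sum_wt (a b : S) (hab : a ≠ b) (u : ℝ) :
    ∑ x, wt a b x * (if x = a then u else 1) = (Fintype.card S : ℝ) - 2 + 2 * u := by
  have h1 : ∀ x : S, wt a b x * (if x = a then u else 1) =
      1 + (if x = a then (2 * u - 1) else 0) + (if x = b then (-1 : ℝ) else 0) := by
    intro x
    unfold wt
    by_cases h1 : x = a
    · subst h1
      simp [hab]
    · by_cases h2 : x = b
      · subst h2
        simp [h1]
      · simp [h1, h2]
  rw [Finset.sum_congr rfl fun x _ => h1 x, Finset.sum_add_distrib, Finset.sum_add_distrib]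
  simp
  ring

/-- the positions of `a` -/
def RR {n : ℕ} (a : S) (c : Fin n → S) : Finset (Fin n) := univ.filter fun i => c i = a

theorem gen (a b : S) (hab : a ≠ b) (n : ℕ) (u : ℝ) :
    ∑ c : Fin n → S, (∏ i, wt a b (c i)) * u ^ (RR a c).card =
      ((Fintype.card S : ℝ) - 2 + 2 * u) ^ n := by
  rw [← sum_wt a b hab u]
  have h1 : (∑ x, wt a b x * (if x = a then u else 1)) ^ n =
      ∏ _i : Fin n, ∑ x, wt a b x * (if x = a then u else 1) := by
    rw [Finset.prod_const, Finset.card_univ, Fintype.card_fin]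
  rw [h1, Finset.prod_univ_sum, Fintype.piFinset_univ]
  refine Finset.sum_congr rfl fun c _ => ?_
  rw [Finset.prod_mul_distrib]
  congr 1
  rw [Finset.prod_ite, Finset.prod_const, Finset.prod_const_one, mul_one]
  rfl

theorem gen_int (a b : S) (hab : a ≠ b) (n : ℕ) :
    ∑ c : Fin n → S, (∏ i, wt a b (c i)) / (((RR a c).card : ℝ) + 1) ≤
      (Fintype.card S : ℝ) ^ (n + 1) / (2 * (n + 1)) := by
  have hs : (2 : ℝ) ≤ Fintype.card S := by
    have : 1 < Fintype.card S := Fintype.one_lt_card_iff.2 ⟨a, b, hab⟩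
    exact_mod_cast this
  have h1 : ∑ c : Fin n → S, (∏ i, wt a b (c i)) / (((RR a c).card : ℝ) + 1) =
      ∫ u in (0 : ℝ)..1, ((Fintype.card S : ℝ) - 2 + 2 * u) ^ n := by
    have h2 : ∀ u : ℝ, ((Fintype.card S : ℝ) - 2 + 2 * u) ^ n =
        ∑ c : Fin n → S, (∏ i, wt a b (c i)) * u ^ (RR a c).card := fun u => (gen a b hab n u).symm
    rw [intervalIntegral.integral_congr (g := fun u => ∑ c : Fin n → S,
      (∏ i, wt a b (c i)) * u ^ (RR a c).card) (fun u _ => h2 u),
      intervalIntegral.integral_finsetSum]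
    · refine Finset.sum_congr rfl fun c _ => ?_
      rw [intervalIntegral.integral_const_mul, integral_pow]
      simp
      ring
    · intro c _
      exact (Continuous.intervalIntegrable (by fun_prop) _ _)
  rw [h1]
  have h3 : ∫ u in (0 : ℝ)..1, ((Fintype.card S : ℝ) - 2 + 2 * u) ^ n =
      ((Fintype.card S : ℝ) ^ (n + 1) - ((Fintype.card S : ℝ) - 2) ^ (n + 1)) / (2 * (n + 1)) := by
    have h4 := intervalIntegral.integral_comp_mul_add (a := 0) (b := 1) (c := (2 : ℝ))
      (fun x : ℝ => x ^ n) (by norm_num) ((Fintype.card S : ℝ) - 2)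
    have h5 : ∀ u : ℝ, ((Fintype.card S : ℝ) - 2 + 2 * u) ^ n =
        (fun x : ℝ => x ^ n) (2 * u + ((Fintype.card S : ℝ) - 2)) := by
      intro u
      simp only []
      congr 1
      ring
    rw [intervalIntegral.integral_congr (g := fun u : ℝ => (fun x : ℝ => x ^ n)
      (2 * u + ((Fintype.card S : ℝ) - 2))) (fun u _ => h5 u), h4, integral_pow]
    have e1 : (2 : ℝ) * 1 + ((Fintype.card S : ℝ) - 2) = Fintype.card S := by ring
    have e2 : (2 : ℝ) * 0 + ((Fintype.card S : ℝ) - 2) = (Fintype.card S : ℝ) - 2 := by ring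
    rw [e1, e2, smul_eq_mul]
    field_simp
  rw [h3]
  refine div_le_div_of_nonneg_right ?_ (by positivity)
  have : (0 : ℝ) ≤ ((Fintype.card S : ℝ) - 2) ^ (n + 1) := pow_nonneg (by linarith) _
  linarith

/-- replace `b` by `a` -/
def qq (a b x : S) : S := if x = b then a else x

/-- **The count in one fibre.** -/
theorem fib (X : S → ℝ) (a b : S) (hab : X a ≠ X b) (n : ℕ) (t : ℝ) (ht : 0 ≤ t)
    (c : Fin n → S) :
    (((univ.filter fun f : Fin n → S => |∑ i, X (f i)| ≤ t).filter
      fun f => (fun i => qq a b (f i)) = c).card : ℝ) ≤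
      (2 * t / |X b - X a| + 1) * ((∏ i, wt a b (c i)) / √(((RR a c).card : ℝ) + 1)) := by
  have hne : a ≠ b := fun h => hab (by rw [h])
  have hδ : X b - X a ≠ 0 := sub_ne_zero.2 (Ne.symm hab)
  have hp : (0 : ℝ) ≤ ∏ i, wt a b (c i) := Finset.prod_nonneg fun i _ => wt_nonneg _ _ _
  by_cases hc : ∃ i, c i = b
  · obtain ⟨i, hi⟩ := hc
    have : ((univ.filter fun f : Fin n → S => |∑ i, X (f i)| ≤ t).filter
      fun f => (fun i => qq a b (f i)) = c) = ∅ := by
      rw [Finset.filter_eq_empty_iff]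
      intro f _ hf
      have h1 : qq a b (f i) = b := (congrFun hf i).trans hi
      unfold qq at h1
      split_ifs at h1 with h2
      · exact hne h1
      · exact h2 h1
    rw [this, Finset.card_empty, Nat.cast_zero]
    positivity
  · push Not at hc
    have hprod : ∏ i, wt a b (c i) = 2 ^ (RR a c).card := by
      have : ∀ i, wt a b (c i) = if c i = a then (2 : ℝ) else 1 := by
        intro i
        unfold wt
        rw [if_neg (hc i)]
      rw [Finset.prod_congr rfl fun i _ => this i, Finset.prod_ite, Finset.prod_const,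
        Finset.prod_const_one, mul_one]
      rfl
    rw [hprod]
    refine le_trans ?_ (card_sub (RR a c) (∑ i, X (c i)) (X b - X a) t hδ ht)
    have hcard : ((univ.filter fun f : Fin n → S => |∑ i, X (f i)| ≤ t).filter
      fun f => (fun i => qq a b (f i)) = c).card ≤
      ((RR a c).powerset.filter fun T =>
        |∑ i, X (c i) + (T.card : ℝ) * (X b - X a)| ≤ t).card := by
      refine Finset.card_le_card_of_injOn (fun f => univ.filter fun i => f i = b) ?_ ?_
      · intro f hf
        simp only [Finset.coe_filter, Set.mem_ofPred_eq, Finset.mem_filter, Finset.mem_univ,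
          true_and, Finset.mem_powerset] at hf ⊢
        obtain ⟨h1, h2⟩ := hf
        refine ⟨?_, ?_⟩
        · intro i hi
          rw [Finset.mem_filter] at hi
          unfold RR
          rw [Finset.mem_filter]
          refine ⟨Finset.mem_univ _, ?_⟩
          rw [← h2]
          simp only [qq]
          rw [if_pos hi.2]
        · have h3 : ∑ i, X (f i) = ∑ i, X (c i) +
              ((univ.filter fun i => f i = b).card : ℝ) * (X b - X a) := by
            have h4 : ∀ i, X (f i) = X (c i) + (if f i = b then (X b - X a) else 0) := by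
              intro i
              rw [← h2]
              simp only [qq]
              by_cases h5 : f i = b
              · rw [if_pos h5, if_pos h5, h5]; ring
              · rw [if_neg h5, if_neg h5, add_zero]
            rw [Finset.sum_congr rfl fun i _ => h4 i, Finset.sum_add_distrib, ← Finset.sum_filter,
              Finset.sum_const, nsmul_eq_mul]
          rw [← h3]
          exact h1
      · intro f hf g hg hfg
        simp only [Finset.coe_filter, Set.mem_ofPred_eq, Finset.mem_filter, Finset.mem_univ,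
          true_and] at hf hg hfg
        funext i
        have h1 : (f i = b) ↔ (g i = b) := by
          have := congrArg (fun T : Finset (Fin n) => i ∈ T) hfg
          simpa using this
        have h2 : qq a b (f i) = qq a b (g i) := by
          have h3 := congrFun hf.2 i
          have h4 := congrFun hg.2 i
          exact h3.trans h4.symm
        by_cases h3 : f i = b
        · rw [h3, h1.1 h3]
        · unfold qq at h2
          rw [if_neg h3, if_neg (fun h => h3 (h1.2 h))] at h2
          exact h2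
    exact_mod_cast hcard

/-- **Littlewood-Offord.** -/
theorem lo (X : S → ℝ) (a b : S) (hab : X a ≠ X b) : ∃ K : ℝ, 0 < K ∧ ∀ (n : ℕ) (t : ℝ), 0 ≤ t →
    ((univ.filter fun f : Fin n → S => |∑ i, X (f i)| ≤ t).card : ℝ) * √((n : ℝ) + 1) ≤
      K * (1 + t) * (Fintype.card S : ℝ) ^ n := by
  have hne : a ≠ b := fun h => hab (by rw [h])
  have hδ : 0 < |X b - X a| := abs_pos.2 (sub_ne_zero.2 (Ne.symm hab))
  have hs : (2 : ℝ) ≤ Fintype.card S := by
    have : 1 < Fintype.card S := Fintype.one_lt_card_iff.2 ⟨a, b, hne⟩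
    exact_mod_cast this
  set s : ℝ := (Fintype.card S : ℝ) with hsdef
  refine ⟨(2 / |X b - X a| + 1) * √(s / 2), by positivity, fun n t ht => ?_⟩
  set W : (Fin n → S) → ℝ := fun c => ∏ i, wt a b (c i) with hW
  have hW0 : ∀ c, 0 ≤ W c := fun c => Finset.prod_nonneg fun i _ => wt_nonneg _ _ _
  have h1 : ((univ.filter fun f : Fin n → S => |∑ i, X (f i)| ≤ t).card : ℝ) ≤
      ∑ c : Fin n → S, (2 * t / |X b - X a| + 1) * (W c / √(((RR a c).card : ℝ) + 1)) := by
    rw [Finset.card_eq_sum_card_fiberwise (f := fun f : Fin n → S => fun i => qq a b (f i))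
      (t := (univ : Finset (Fin n → S))) (fun f _ => by simp)]
    push_cast
    exact Finset.sum_le_sum fun c _ => fib X a b hab n t ht c
  have h2 : ∑ c : Fin n → S, W c = s ^ n := by
    have := gen a b hne n 1
    simp only [one_pow, mul_one] at this
    rw [hW, this]
    congr 1
    ring
  have h3 : ∑ c : Fin n → S, W c / (((RR a c).card : ℝ) + 1) ≤ s ^ (n + 1) / (2 * (n + 1)) :=
    gen_int a b hne n
  have h4 : (∑ c : Fin n → S, W c / √(((RR a c).card : ℝ) + 1)) ^ 2 ≤
      (∑ c : Fin n → S, W c) * ∑ c : Fin n → S, W c / (((RR a c).card : ℝ) + 1) := by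
    have h5 := Finset.sum_mul_sq_le_sq_mul_sq (univ : Finset (Fin n → S)) (fun c => √(W c))
      (fun c => √(W c / (((RR a c).card : ℝ) + 1)))
    have e1 : ∀ c : Fin n → S, √(W c) * √(W c / (((RR a c).card : ℝ) + 1)) =
        W c / √(((RR a c).card : ℝ) + 1) := by
      intro c
      rw [Real.sqrt_div (hW0 c), ← mul_div_assoc, Real.mul_self_sqrt (hW0 c)]
    have e2 : ∀ c : Fin n → S, √(W c) ^ 2 = W c := fun c => Real.sq_sqrt (hW0 c)
    have e3 : ∀ c : Fin n → S, √(W c / (((RR a c).card : ℝ) + 1)) ^ 2 =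
        W c / (((RR a c).card : ℝ) + 1) := fun c => Real.sq_sqrt (div_nonneg (hW0 c) (by positivity))
    simp only [e1, e2, e3] at h5
    exact h5
  set Sg : ℝ := ∑ c : Fin n → S, W c / √(((RR a c).card : ℝ) + 1) with hSg
  have hSg0 : 0 ≤ Sg := Finset.sum_nonneg fun c _ => div_nonneg (hW0 c) (Real.sqrt_nonneg _)
  have h6 : Sg * √((n : ℝ) + 1) ≤ √(s / 2) * s ^ n := by
    refine (pow_le_pow_iff_left₀ (by positivity) (by positivity) two_ne_zero).1 ?_
    have hn : (0 : ℝ) ≤ (n : ℝ) + 1 := by positivity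
    rw [mul_pow, Real.sq_sqrt hn, mul_pow, Real.sq_sqrt (by positivity)]
    have h7 : Sg ^ 2 ≤ s ^ n * (s ^ (n + 1) / (2 * (n + 1))) := by
      refine h4.trans ?_
      rw [h2]
      exact mul_le_mul_of_nonneg_left h3 (by positivity)
    calc Sg ^ 2 * ((n : ℝ) + 1) ≤ s ^ n * (s ^ (n + 1) / (2 * (n + 1))) * ((n : ℝ) + 1) :=
          mul_le_mul_of_nonneg_right h7 hn
      _ = s / 2 * (s ^ n) ^ 2 := by
          field_simp
          exact pow_succ _ _
  rw [← Finset.mul_sum] at h1
  calc ((univ.filter fun f : Fin n → S => |∑ i, X (f i)| ≤ t).card : ℝ) * √((n : ℝ) + 1)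
      ≤ (2 * t / |X b - X a| + 1) * Sg * √((n : ℝ) + 1) :=
        mul_le_mul_of_nonneg_right h1 (Real.sqrt_nonneg _)
    _ = (2 * t / |X b - X a| + 1) * (Sg * √((n : ℝ) + 1)) := by ring
    _ ≤ (2 * t / |X b - X a| + 1) * (√(s / 2) * s ^ n) :=
        mul_le_mul_of_nonneg_left h6 (by positivity)
    _ ≤ ((2 / |X b - X a| + 1) * (1 + t)) * (√(s / 2) * s ^ n) := by
        refine mul_le_mul_of_nonneg_right ?_ (by positivity)
        have e1 : (2 / |X b - X a| + 1) * (1 + t) =
            2 * t / |X b - X a| + 1 + (2 / |X b - X a| + t) := by ring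
        rw [e1]
        have : 0 ≤ 2 / |X b - X a| + t := by positivity
        linarith
    _ = _ := by ring

end lo

end Pool.Agent.V7H23.AW
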