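import Pool.Agent.N85.WM.Fin
import Pool.Agent.V7H23.AW.Irr

/-!
# Blocks of direct powers

The numbers of irreducible Brauer characters and of weights of the blocks of a direct power.
-/

set_option autoImplicit false

open scoped Classical BigOperators

noncomputable section

namespace Pool.Agent.V7H23.AW

open Pool.Agent.Y63.NV Pool.Agent.N85.WM
open Pool.Agent.Y63.NV.B286 (conv_class single_class)
open Pool.Agent.N85.WM.Ww (tot tot_eq1 PP WT wcv01 wsum_tot card_norm_pi)

section tens

variable {F : Type} [Field F] {ι : Type} [Fintype ι] {G : Type} [Group G]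

theorem tensF_class {h : ι → G → F} (hh : ∀ i, IsClassFun (h i)) : IsClassFun (tensF h) := by
  intro g x
  unfold tensF
  exact Finset.prod_congr rfl fun i _ => hh i (g i) (x i)

/-- the values of a block of the direct power at the tensors -/
def MulOn (D : ((ι → G) → F) → F) (b : ι → (G → F) → F) : Prop :=
  ∀ h : ι → G → F, (∀ i, IsClassFun (h i)) → D (tensF h) = ∏ i, b i (h i)

/-- the indicator function of a class -/
def ind (F : Type) [Field F] {G : Type} [Group G] (C : ConjClasses G) : G → F :=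
  fun x => if ConjClasses.mk x = C then 1 else 0

theorem ind_class (C : ConjClasses G) : IsClassFun (ind F C) := by
  intro g x
  unfold ind
  have : ConjClasses.mk (g * x * g⁻¹) = ConjClasses.mk x := by
    rw [ConjClasses.mk_eq_mk_iff_isConj]
    exact (isConj_iff.2 ⟨g, rfl⟩ : IsConj x (g * x * g⁻¹)).symm
  rw [this]

theorem expand [Finite G] {f : (ι → G) → F} (hf : IsClassFun f)
    [Fintype (ι → ConjClasses G)] :
    f = ∑ C : ι → ConjClasses G, f (fun i => (C i).out) • tensF (fun i => ind F (C i)) := by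
  funext x
  rw [Finset.sum_apply, Finset.sum_eq_single (fun i => ConjClasses.mk (x i))]
  · rw [Pi.smul_apply, smul_eq_mul]
    have h1 : tensF (fun i => ind F (ConjClasses.mk (x i))) x = 1 := by
      unfold tensF ind
      exact Finset.prod_eq_one fun i _ => if_pos rfl
    rw [h1, mul_one]
    have h2 : ∀ i, ∃ c : G, c * x i * c⁻¹ = (ConjClasses.mk (x i)).out := by
      intro i
      have h3 : IsConj (x i) (ConjClasses.mk (x i)).out := by
        rw [← ConjClasses.mk_eq_mk_iff_isConj]
        exact (Quotient.out_eq _).symm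
      exact isConj_iff.1 h3
    choose c hc using h2
    rw [← hf c x]
    congr 1
    funext i
    exact (hc i)
  · intro C _ hC
    rw [Pi.smul_apply, smul_eq_mul]
    obtain ⟨i, hi⟩ := Function.ne_iff.1 hC
    have : tensF (fun i => ind F (C i)) x = 0 := by
      unfold tensF
      refine Finset.prod_eq_zero (Finset.mem_univ i) ?_
      exact if_neg fun h => hi (Eq.symm h)
    rw [this, mul_zero]
  · intro h
    exact absurd (Finset.mem_univ _) h

theorem block_sum {H : Type} [Group H] {B : (H → F) → F} (hB : IsBlock B) {κ : Type}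
    (s : Finset κ) (a : κ → F) (f : κ → H → F) (hf : ∀ k, IsClassFun (f k)) :
    IsClassFun (∑ k ∈ s, a k • f k) ∧ B (∑ k ∈ s, a k • f k) = ∑ k ∈ s, a k * B (f k) := by
  induction s using Finset.induction_on with
  | empty =>
    have h0 : IsClassFun (0 : H → F) := fun _ _ => rfl
    refine ⟨by rw [Finset.sum_empty]; exact h0, ?_⟩
    rw [Finset.sum_empty, Finset.sum_empty]
    have := hB.smul 0 0 h0
    rwa [zero_smul, zero_mul] at this
  | insert k T hk ih =>
    rw [Finset.sum_insert hk, Finset.sum_insert hk]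
    refine ⟨cl_add (cl_smul _ (hf k)) ih.1, ?_⟩
    rw [hB.add _ _ (cl_smul _ (hf k)) ih.1, hB.smul _ _ (hf k), ih.2]

theorem mulOn_beq [Finite G] {D D' : ((ι → G) → F) → F} {b b' : ι → (G → F) → F}
    (hD : IsBlock D) (hD' : IsBlock D') (h : MulOn D b) (h' : MulOn D' b')
    (hb : ∀ i, BEq (b i) (b' i)) : BEq D D' := by
  intro f hf
  have : Fintype (ι → ConjClasses G) := Fintype.ofFinite _
  have hcl : ∀ C : ι → ConjClasses G, IsClassFun (tensF (fun i => ind F (C i))) := fun C =>
    tensF_class fun i => ind_class (C i)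
  rw [expand hf, (block_sum hD _ _ _ hcl).2, (block_sum hD' _ _ _ hcl).2]
  refine Finset.sum_congr rfl fun C _ => ?_
  rw [h _ fun i => ind_class (C i), h' _ fun i => ind_class (C i)]
  congr 1
  exact Finset.prod_congr rfl fun i _ => hb i _ (ind_class (C i))

theorem mulOn_comp {D D' : ((ι → G) → F) → F} {b b' : ι → (G → F) → F}
    (hb : ∀ i, IsBlock (b i)) (hb' : ∀ i, IsBlock (b' i)) (h : MulOn D b) (h' : MulOn D' b')
    (hh : BEq D D') (i : ι) : BEq (b i) (b' i) := by
  intro f hf
  set k : ι → G → F := Function.update (fun _ => Pi.single 1 1) i f with hk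
  have hcl : ∀ j, IsClassFun (k j) := by
    intro j
    by_cases hj : j = i
    · subst hj
      rw [hk, Function.update_self]
      exact hf
    · rw [hk, Function.update_of_ne hj]
      exact single_class
  have key : ∀ c : ι → (G → F) → F, (∀ j, IsBlock (c j)) → ∏ j, c j (k j) = c i f := by
    intro c hc
    rw [Finset.prod_eq_single i]
    · rw [hk, Function.update_self]
    · intro j _ hj
      rw [hk, Function.update_of_ne hj]
      exact (hc j).one
    · intro h
      exact absurd (Finset.mem_univ i) h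
  rw [← key b hb, ← key b' hb', ← h k hcl, ← h' k hcl]
  exact hh _ (tensF_class hcl)

end tens

section irr

variable {F : Type} [Field F] [IsAlgClosed F] {ι : Type} [Fintype ι] {G : Type} [Group G]
  [Finite G]

/-- the product of irreducible traces -/
def tIrr (θ : ι → {φ : G → F // IsIrrTrace φ}) : {φ : (ι → G) → F // IsIrrTrace φ} :=
  ⟨tensF fun i => (θ i).1, Pool.Agent.N85.WM.Pir.tensF_irr fun i => (θ i).2⟩

theorem mulOn_blk (θ : ι → {φ : G → F // IsIrrTrace φ}) :
    MulOn (blkOf (tIrr θ)) (fun i => blkOf (θ i)) := by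
  intro h hh
  rw [← blkOf_iff (tIrr θ) (tensF_class hh)]
  intro x
  change ∑ᶠ g : ι → G, tensF h g * tensF (fun i => (θ i).1) (g * x) = _
  have h4 : ∀ g : ι → G, tensF h g * tensF (fun i => (θ i).1) (g * x) =
      ∏ i, (fun (i : ι) (y : G) => h i y * (θ i).1 (y * x i)) i (g i) := by
    intro g
    simp only [tensF, Pi.mul_apply]
    rw [← Finset.prod_mul_distrib]
  rw [finsum_congr h4]
  refine (Pool.Agent.N85.WM.Lw.finsum_tens
    fun (i : ι) (y : G) => h i y * (θ i).1 (y * x i)).trans ?_
  rw [Finset.prod_congr rfl fun i _ => blkOf_spec (θ i) (hh i) (x i), Finset.prod_mul_distrib]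
  rfl

theorem tIrr_bij (p : ℕ) [Fact p.Prime] [CharP F p] : Function.Bijective
    (tIrr : (ι → {φ : G → F // IsIrrTrace φ}) → {φ : (ι → G) → F // IsIrrTrace φ}) := by
  have h := Pool.Agent.N85.WM.Pir.main p F ι G
  constructor
  · intro θ θ' hθ
    have h1 := h.2 (fun i => (θ i).1) (fun i => (θ' i).1) (fun i => (θ i).2) (fun i => (θ' i).2)
      (congrArg Subtype.val hθ)
    funext i
    exact Subtype.ext (congrFun h1 i)
  · rintro ⟨φ, hφ⟩
    obtain ⟨θ, h1, h2⟩ := (h.1 φ).1 hφ
    exact ⟨fun i => ⟨θ i, h1 i⟩, Subtype.ext h2.symm⟩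

theorem blk_tens_iff (θ θ' : ι → {φ : G → F // IsIrrTrace φ}) :
    BEq (blkOf (tIrr θ')) (blkOf (tIrr θ)) ↔ ∀ i, BEq (blkOf (θ' i)) (blkOf (θ i)) :=
  ⟨fun h => mulOn_comp (fun i => blkOf_block (θ' i)) (fun i => blkOf_block (θ i)) (mulOn_blk θ')
    (mulOn_blk θ) h, fun h => mulOn_beq (blkOf_block _) (blkOf_block _) (mulOn_blk θ')
    (mulOn_blk θ) h⟩

/-- `l` of a block of the direct power -/
theorem numIrrBlock_tens (p : ℕ) [Fact p.Prime] [CharP F p]
    (θ : ι → {φ : G → F // IsIrrTrace φ}) :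
    numIrrBlock (blkOf (tIrr θ)) = ∏ i, numIrrBlock (blkOf (θ i)) := by
  simp only [numIrrBlock_eq]
  rw [← Nat.card_pi]
  refine (Nat.card_congr ?_).symm
  refine
    { toFun := fun w => ⟨tIrr fun i => (w i).1, (blk_tens_iff θ _).2 fun i => (w i).2⟩
      invFun := fun φ i => ⟨(Equiv.ofBijective _ (tIrr_bij p)).symm φ.1 i, ?_⟩
      left_inv := ?_
      right_inv := ?_ }
  · have h1 : tIrr ((Equiv.ofBijective _ (tIrr_bij (ι := ι) (G := G) (F := F) p)).symm φ.1) =
        φ.1 := (Equiv.ofBijective _ (tIrr_bij p)).apply_symm_apply φ.1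
    refine (blk_tens_iff θ _).1 ?_ i
    rw [h1]
    exact φ.2
  · intro w
    funext i
    apply Subtype.ext
    have h1 := (Equiv.ofBijective _ (tIrr_bij (ι := ι) (G := G) (F := F) p)).symm_apply_apply
      fun i => (w i).1
    exact congrFun h1 i
  · intro φ
    apply Subtype.ext
    exact (Equiv.ofBijective _ (tIrr_bij p)).apply_symm_apply φ.1

/-- the blocks of the direct power are products -/
theorem exists_mulOn (p : ℕ) [Fact p.Prime] [CharP F p] {D : ((ι → G) → F) → F}
    (hD : IsBlock D) : ∃ θ : ι → {φ : G → F // IsIrrTrace φ}, BEq (blkOf (tIrr θ)) D ∧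
      MulOn D (fun i => blkOf (θ i)) := by
  obtain ⟨φ, hφ⟩ := exists_irr hD
  obtain ⟨θ, rfl⟩ := (tIrr_bij p).2 φ
  refine ⟨θ, hφ, fun h hh => ?_⟩
  rw [← hφ _ (tensF_class hh)]
  exact mulOn_blk θ h hh

end irr

section wts

variable {F : Type} [Field F] {ι : Type} [Fintype ι] {G : Type} [Group G] {p : ℕ}
  {red : integralClosure ℤ ℂ →+* F}

theorem wpi : S_WPI := Pool.Agent.N85.WM.Wpi.main

theorem wpc : S_WPC := Pool.Agent.N85.WM.Wpi.wpc

theorem pm_mem [Fact p.Prime] [Finite G] {e : ι → G → F} (he : ∀ i, IsClassFun (e i))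
    (w : ∀ i, WT p red (e i)) :
    IsW p (piSub fun i => (w i).1.1) (tensF fun i => (w i).1.2) ∧
      wcv red (piSub fun i => (w i).1.1) (tensF fun i => (w i).1.2) (tensF e) = 1 := by
  refine ⟨((wpi p ι G).1 _ _).2 ⟨_, _, fun i => (w i).2.1, rfl, rfl⟩, ?_⟩
  rw [wpc p F red ι G _ _ _ (fun i => (w i).2.1) he]
  exact Finset.prod_eq_one fun i _ => (w i).2.2

/-- the weights of the direct power -/
def pm [Fact p.Prime] [Finite G] {e : ι → G → F} (he : ∀ i, IsClassFun (e i))
    (w : ∀ i, WT p red (e i)) : WT p red (tensF e) :=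
  ⟨(piSub fun i => (w i).1.1, tensF fun i => (w i).1.2), pm_mem he w⟩

theorem pm_bij [Fact p.Prime] [IsAlgClosed F] [CharP F p] [Finite G] {e : ι → G → F}
    (he : ∀ i, IsIdem (e i)) : Function.Bijective
      (pm (fun i => (he i).cl) : (∀ i, WT p red (e i)) → WT p red (tensF e)) := by
  constructor
  · intro w w' h
    have h3 : piSub (fun i => (w i).1.1) = piSub fun i => (w' i).1.1 :=
      congrArg (fun x => x.1.1) h
    have h4 : tensF (fun i => (w i).1.2) = tensF fun i => (w' i).1.2 :=
      congrArg (fun x => x.1.2) h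
    obtain ⟨h5, h6⟩ := (wpi p ι G).2 _ _ _ _ (fun i => (w i).2.1) (fun i => (w' i).2.1) h3 h4
    funext i
    exact Subtype.ext (Prod.ext (congrFun h5 i) (congrFun h6 i))
  · rintro ⟨⟨Q, χ⟩, hw, hv⟩
    obtain ⟨R, ψ, hR, rfl, rfl⟩ := ((wpi p ι G).1 Q χ).1 hw
    simp only [] at hv
    rw [wpc p F red ι G _ _ _ hR (fun i => (he i).cl)] at hv
    have hv' : ∀ i, wcv red (R i) (ψ i) (e i) = 1 := by
      intro i
      rcases wcv01 (red := red) (he i) (hR i) with h | h
      · rw [Finset.prod_eq_zero (Finset.mem_univ i) h] at hv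
        exact absurd hv zero_ne_one
      · exact h
    exact ⟨fun i => ⟨(R i, ψ i), hR i, hv' i⟩, rfl⟩

theorem tot_pm [Fact p.Prime] [IsAlgClosed F] [CharP F p] [Finite G] {e : ι → G → F}
    (he : ∀ i, IsIdem (e i)) :
    tot (PP p red (tensF e)) = ∏ i, tot (PP p red (e i)) := by
  have : ∀ i, Fintype (WT p red (e i)) := fun i => Fintype.ofFinite _
  have : Fintype (WT p red (tensF e)) := Fintype.ofFinite _
  rw [tot_eq1 (PP p red (tensF e)), Finset.prod_congr rfl fun i _ => tot_eq1 (PP p red (e i)),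
    Finset.prod_univ_sum, Fintype.piFinset_univ]
  symm
  refine Fintype.sum_bijective _ (pm_bij he) _ _ fun w => ?_
  change _ = (Nat.card (Subgroup.normalizer
    ((piSub (fun i => (w i).1.1) : Subgroup (ι → G)) : Set (ι → G))) : ℤ)
  rw [card_norm_pi]
  push_cast
  rfl

/-- the number of weights of a block by the idempotent of the block -/
theorem tot_block [Fact p.Prime] [IsAlgClosed F] [CharP F p] [Finite G] {B : (G → F) → F}
    {e : G → F} (he : IsClassFun e)
    (h : ∀ D : (G → F) → F, IsBlock D → (D e = 1 ↔ BEq D B)) :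
    tot (PP p red e) = (Nat.card G : ℤ) * numWts p red B := by
  have h1 := (wsum_tot (p := p) red e 1).symm.trans (wsum_top red he 1)
  change tot (fun Q χ => IsW p Q χ ∧ wcv red Q χ e = 1) = _
  rw [h1, numWts_eq]
  congr 2
  refine Nat.card_congr (Equiv.subtypeEquivRight fun y => ?_)
  exact h _ (cvS_block red y)

/-- `w` of a block of the direct power -/
theorem numWts_tens (red : integralClosure ℤ ℂ →+* F) [Fact p.Prime] [IsAlgClosed F]
    [CharP F p] [Finite G] (θ : ι → {φ : G → F // IsIrrTrace φ}) :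
    numWts p red (blkOf (tIrr θ)) = ∏ i, numWts p red (blkOf (θ i)) := by
  have h1 : ∀ i, ∃ e : G → F, IsIdem e ∧ blkOf (θ i) e = 1 ∧
      ∀ B' : (G → F) → F, IsBlock B' → B' e = 1 → BEq (blkOf (θ i)) B' := fun i =>
    exists_idem (blkOf_block (θ i))
  choose e he h2 h3 using h1
  have h4 : ∀ i, tot (PP p red (e i)) = (Nat.card G : ℤ) * numWts p red (blkOf (θ i)) := by
    intro i
    refine tot_block (he i).cl fun D hD => ⟨fun h => (h3 i D hD h).symm, fun h => ?_⟩
    rw [h _ (he i).cl, h2]
  have hcl : IsClassFun (tensF e) := tensF_class fun i => (he i).cl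
  have h5 : tot (PP p red (tensF e)) =
      (Nat.card (ι → G) : ℤ) * numWts p red (blkOf (tIrr θ)) := by
    refine tot_block hcl fun D hD => ?_
    obtain ⟨θ', h6, h7⟩ := exists_mulOn p hD
    have h8 : D (tensF e) = ∏ i, blkOf (θ' i) (e i) := h7 e fun i => (he i).cl
    constructor
    · intro h
      rw [h8] at h
      have h9 : ∀ i, BEq (blkOf (θ' i)) (blkOf (θ i)) := by
        intro i
        rcases (he i).val _ (blkOf_block (θ' i)) with h0 | h0
        · rw [Finset.prod_eq_zero (Finset.mem_univ i) h0] at h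
          exact absurd h zero_ne_one
        · exact (h3 i _ (blkOf_block (θ' i)) h0).symm
      exact h6.symm.trans ((blk_tens_iff θ θ').2 h9)
    · intro h
      have h9 : ∀ i, BEq (blkOf (θ' i)) (blkOf (θ i)) :=
        (blk_tens_iff θ θ').1 (h6.trans h)
      rw [h8]
      refine Finset.prod_eq_one fun i _ => ?_
      rw [h9 i _ (he i).cl, h2]
  have h6 := tot_pm (red := red) (p := p) he
  rw [h5, Finset.prod_congr rfl fun i _ => h4 i, Finset.prod_mul_distrib, Finset.prod_const,
    Finset.card_univ, Nat.card_fun, Nat.card_eq_fintype_card (α := ι)] at h6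
  have hG : ((Nat.card G : ℤ) ^ Fintype.card ι) ≠ 0 := by
    have : (Nat.card G : ℤ) ≠ 0 := by exact_mod_cast Nat.card_pos.ne'
    exact pow_ne_zero _ this
  push_cast at h6
  have h7 := mul_left_cancel₀ hG h6
  exact_mod_cast h7

end wts

end Pool.Agent.V7H23.AW
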