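import Pool.Agent.V7H23.AW.Irr
import Pool.Agent.Y63.AWC.Deg

/-!
# The trivial group
-/

set_option autoImplicit false

open scoped Classical BigOperators

noncomputable section

namespace Pool.Agent.V7H23.AW

open Pool.Agent.Y63.NV Pool.Agent.N85.WM
open Pool.Agent.Y63.AWC (IsIrreducibleCharacter pSubgroupSetoid)

theorem numIrrBlock_congr {F : Type} [Field F] [IsAlgClosed F] {G : Type} [Group G] [Finite G]
    {B B' : (G → F) → F} (h : BEq B B') : numIrrBlock B = numIrrBlock B' := by
  rw [numIrrBlock_eq, numIrrBlock_eq]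
  exact Nat.card_congr (Equiv.subtypeEquivRight fun φ =>
    ⟨fun h1 => h1.trans h, fun h1 => h1.trans h.symm⟩)

theorem numWts_congr {p : ℕ} {F : Type} [Field F] (red : integralClosure ℤ ℂ →+* F) {G : Type}
    [Group G] [Finite G] {B B' : (G → F) → F} (h : BEq B B') :
    numWts p red B = numWts p red B' := by
  rw [numWts_eq, numWts_eq]
  exact Nat.card_congr (Equiv.subtypeEquivRight fun φ =>
    ⟨fun h1 => h1.trans h, fun h1 => h1.trans h.symm⟩)

section one

variable {J : Type} [Group J] [Subsingleton J]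

theorem fun_ext1 {F : Type} {f g : J → F} (h : f 1 = g 1) : f = g := by
  funext x
  rw [Subsingleton.elim x 1, h]

theorem block_one (F : Type) [Field F] : IsBlock (fun f : J → F => f 1) := by
  refine ⟨fun f g _ _ => rfl, fun a f _ => rfl, ?_, fun f g _ _ => ?_⟩
  · exact Pi.single_eq_same 1 1
  · unfold conv
    have : Unique J := ⟨⟨1⟩, fun x => Subsingleton.elim _ _⟩
    rw [finsum_unique]
    rw [Subsingleton.elim (default⁻¹ * 1 : J) 1, Subsingleton.elim (default : J) 1]

theorem deg_one {χ : J → ℂ} (h : IsIrreducibleCharacter χ) : χ 1 = 1 := by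
  have : Finite J := Finite.of_subsingleton
  let _ : Fintype J := Fintype.ofFinite J
  have h1 := h
  obtain ⟨V, _, _, _, ρ, hρ, rfl⟩ := h1
  have h2 : ρ.character 1 = ((Module.finrank ℂ V : ℕ) : ℂ) := ρ.char_one
  have h3 := Pool.Agent.Y63.AWC.deg_dvd (G := J) h h2
  rw [Nat.card_of_subsingleton (1 : J), Nat.dvd_one] at h3
  rw [h2, h3, Nat.cast_one]

/-- the weights of the trivial group -/
theorem isWt_uniq (p : ℕ) (Q : Subgroup J) : ∃! χ : J → ℂ, IsWt p Q χ := by
  have : Finite J := Finite.of_subsingleton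
  obtain ⟨φ, -⟩ := exists_irr (block_one (J := J) ℂ)
  have hφ : IsIrreducibleCharacter φ.1 := φ.2
  refine ⟨φ.1, ⟨hφ, fun q _ x => ?_, 1, ?_, ?_⟩, fun χ hχ => ?_⟩
  · rw [Subsingleton.elim (q * x) x]
  · rw [deg_one hφ, Nat.cast_one]
  · rw [Nat.card_of_subsingleton (1 : J), Nat.card_of_subsingleton (1 : Q)]
    simp
  · exact fun_ext1 ((deg_one hχ.irr).trans (deg_one hφ).symm)

theorem irr_sub (F : Type) [Field F] [IsAlgClosed F] :
    Subsingleton {φ : J → F // IsIrrTrace φ} := by
  have : Finite J := Finite.of_subsingleton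
  let _ : Fintype J := Fintype.ofFinite J
  have : Fintype {φ : J → F // IsIrrTrace φ} := Fintype.ofFinite _
  have h := (Pool.Agent.Y914.NV.irr F J).2
  have h1 := LinearIndependent.fintype_card_le_finrank (R := F) (M := J → F)
    (b := fun φ : {φ : J → F // IsIrrTrace φ} => φ.1) h
  rw [Module.finrank_pi, ← Nat.card_eq_fintype_card (α := J), Nat.card_of_subsingleton (1 : J)]
    at h1
  exact Fintype.card_le_one_iff_subsingleton.1 h1

/-- **The conjecture for the trivial group.** -/
theorem triv_eq {p : ℕ} [Fact p.Prime] {F : Type} [Field F] [IsAlgClosed F] [CharP F p]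
    (red : integralClosure ℤ ℂ →+* F) {B : (J → F) → F} (hB : IsBlock B) :
    numIrrBlock B = numWts p red B := by
  have : Finite J := Finite.of_subsingleton
  have hs := irr_sub (J := J) F
  have hblk : ∀ B' : (J → F) → F, IsBlock B' → BEq B' B := by
    intro B' hB'
    obtain ⟨φ, h1⟩ := exists_irr hB
    obtain ⟨φ', h2⟩ := exists_irr hB'
    rw [Subsingleton.elim φ' φ] at h2
    exact h2.symm.trans h1
  have h1 : numIrrBlock B = 1 := by
    rw [numIrrBlock_eq]
    obtain ⟨φ, h1⟩ := exists_irr hB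
    exact Nat.card_of_subsingleton ⟨φ, h1⟩
  have hsub : Subsingleton (Subgroup J) := by
    refine ⟨fun H K => ?_⟩
    ext x
    rw [Subsingleton.elim x 1]
    exact ⟨fun _ => K.one_mem, fun _ => H.one_mem⟩
  have hYW : ∀ Q : Subgroup J, Nonempty (YW p Q) ∧ Subsingleton (YW p Q) := by
    intro Q
    obtain ⟨χ, hχ, hu⟩ := isWt_uniq (J := Subgroup.normalizer (Q : Set J)) p
      (Q.subgroupOf (Subgroup.normalizer (Q : Set J)))
    exact ⟨⟨⟨χ, hχ⟩⟩, ⟨fun a b => Subtype.ext ((hu _ a.2).trans (hu _ b.2).symm)⟩⟩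
  have hq : Subsingleton (Quotient (pSubgroupSetoid p J)) := by
    refine ⟨fun a b => ?_⟩
    induction a using Quotient.inductionOn with
    | h a =>
      induction b using Quotient.inductionOn with
      | h b =>
        rw [Subsingleton.elim a b]
  have hY : Subsingleton (YS p J) := by
    refine ⟨fun a b => ?_⟩
    obtain ⟨q, x⟩ := a
    obtain ⟨q', x'⟩ := b
    obtain rfl : q = q' := Subsingleton.elim _ _
    have := (hYW q.out.1).2
    rw [Subsingleton.elim x x']
  have h2 : numWts p red B = 1 := by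
    rw [numWts_eq]
    let q : Quotient (pSubgroupSetoid p J) := Quotient.mk _ ⟨⊥, IsPGroup.of_bot⟩
    obtain ⟨y⟩ := (hYW q.out.1).1
    exact Nat.card_of_subsingleton (⟨⟨q, y⟩, hblk _ (cvS_block red _)⟩ :
      {y : YS p J // BEq (cvS red y) B})
  rw [h1, h2]

end one

end Pool.Agent.V7H23.AW
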