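import Pool.Agent.V7H23.AW.LO
import Pool.Agent.V7H23.AW.Tens
import Pool.Agent.V7H23.AW.Triv

/-!
# Approximate forms of the blockwise weight conjecture
-/

set_option autoImplicit false

open scoped Classical BigOperators
open Filter

noncomputable section

namespace Pool.Agent.V7H23.AW

open Pool.Agent.Y63.NV Pool.Agent.N85.WM
open Pool.Agent.Y63.AWC (IsIrreducibleCharacter pSubgroupSetoid)

/-- **The amplification.** -/
theorem amp {S : Type} [Fintype S] (X : S → ℝ) (x0 : S) (hx : X x0 ≠ 0) (g : ℕ) (hg : 2 ≤ g)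
    (σ t : ℕ → ℝ) (hσ : ∀ m, σ m ≤ 1) (ht : ∀ m, 0 ≤ t m)
    (hlim : Tendsto (fun m : ℕ => σ m * √(Real.log m) / (1 + t m)) atTop atTop) :
    ∃ n : ℕ, (((Finset.univ : Finset (Fin n → S)).filter
      fun f => |∑ i, X (f i)| ≤ t (g ^ n)).card : ℝ) < σ (g ^ n) * (Fintype.card S : ℝ) ^ n := by
  have hL : 0 < Real.log g := Real.log_pos (by exact_mod_cast hg)
  have hs : 0 < (Fintype.card S : ℝ) := by
    have : 0 < Fintype.card S := Fintype.card_pos_iff.2 ⟨x0⟩
    exact_mod_cast this
  -- the choice of `n`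
  have key : ∀ M : ℝ, 0 < M → ∃ n : ℕ, 1 ≤ n ∧ 0 < σ (g ^ n) ∧
      M * (1 + t (g ^ n)) ≤ σ (g ^ n) * (√(n : ℝ) * √(Real.log g)) := by
    intro M hM
    obtain ⟨m0, hm0⟩ := Filter.eventually_atTop.1 (hlim.eventually (eventually_ge_atTop M))
    refine ⟨m0 + 1, by omega, ?_⟩
    have h1 : m0 ≤ g ^ (m0 + 1) := by
      have h2 : m0 + 1 < 2 ^ (m0 + 1) := Nat.lt_two_pow_self
      have h3 : 2 ^ (m0 + 1) ≤ g ^ (m0 + 1) := Nat.pow_le_pow_left hg _
      omega
    have h2 := hm0 _ h1
    have h3 : (0 : ℝ) < 1 + t (g ^ (m0 + 1)) := by linarith [ht (g ^ (m0 + 1))]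
    rw [le_div_iff₀ h3] at h2
    have h4 : √(Real.log ((g ^ (m0 + 1) : ℕ) : ℝ)) = √((m0 + 1 : ℕ) : ℝ) * √(Real.log g) := by
      rw [Nat.cast_pow, Real.log_pow, Real.sqrt_mul (by positivity)]
    rw [h4] at h2
    refine ⟨?_, h2⟩
    have h5 : 0 < σ (g ^ (m0 + 1)) * (√((m0 + 1 : ℕ) : ℝ) * √(Real.log g)) :=
      lt_of_lt_of_le (mul_pos hM h3) h2
    exact pos_of_mul_pos_left h5 (by positivity)
  by_cases hc : ∃ a b, X a ≠ X b
  · obtain ⟨a, b, hab⟩ := hc
    obtain ⟨K, hK, hlo⟩ := lo X a b hab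
    obtain ⟨n, hn1, hσn, hn⟩ := key (K * √(Real.log g) + 1) (by positivity)
    refine ⟨n, ?_⟩
    by_contra hcon
    push Not at hcon
    have h1 := hlo n (t (g ^ n)) (ht _)
    have h2 : σ (g ^ n) * √((n : ℝ) + 1) ≤ K * (1 + t (g ^ n)) := by
      have h3 : σ (g ^ n) * (Fintype.card S : ℝ) ^ n * √((n : ℝ) + 1) ≤
          K * (1 + t (g ^ n)) * (Fintype.card S : ℝ) ^ n :=
        (mul_le_mul_of_nonneg_right hcon (Real.sqrt_nonneg _)).trans (by convert h1)
      have h4 : (0 : ℝ) < (Fintype.card S : ℝ) ^ n := pow_pos hs n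
      have h5 : σ (g ^ n) * √((n : ℝ) + 1) * (Fintype.card S : ℝ) ^ n ≤
          K * (1 + t (g ^ n)) * (Fintype.card S : ℝ) ^ n := by linarith
      exact le_of_mul_le_mul_right h5 h4
    have h3 : √(n : ℝ) ≤ √((n : ℝ) + 1) := Real.sqrt_le_sqrt (by linarith)
    have h4 : σ (g ^ n) * (√(n : ℝ) * √(Real.log g)) ≤ K * (1 + t (g ^ n)) * √(Real.log g) := by
      calc σ (g ^ n) * (√(n : ℝ) * √(Real.log g))
          ≤ σ (g ^ n) * (√((n : ℝ) + 1) * √(Real.log g)) :=
            mul_le_mul_of_nonneg_left (mul_le_mul_of_nonneg_right h3 (Real.sqrt_nonneg _)) hσn.le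
        _ = σ (g ^ n) * √((n : ℝ) + 1) * √(Real.log g) := by ring
        _ ≤ _ := mul_le_mul_of_nonneg_right h2 (Real.sqrt_nonneg _)
    have h5 : (0 : ℝ) < 1 + t (g ^ n) := by linarith [ht (g ^ n)]
    nlinarith [h4, hn, h5]
  · push Not at hc
    have hx' : 0 < |X x0| := abs_pos.2 hx
    obtain ⟨n, hn1, hσn, hn⟩ := key (√(Real.log g) / |X x0| + 1) (by positivity)
    refine ⟨n, ?_⟩
    have hn1' : (1 : ℝ) ≤ n := by exact_mod_cast hn1
    have h1 : t (g ^ n) < n * |X x0| := by
      have h2 : √(n : ℝ) ≤ n := by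
        rw [Real.sqrt_le_left (by positivity)]
        nlinarith
      have h3 : (√(Real.log g) / |X x0| + 1) * (1 + t (g ^ n)) ≤ n * √(Real.log g) := by
        refine hn.trans ?_
        calc σ (g ^ n) * (√(n : ℝ) * √(Real.log g)) ≤ 1 * (n * √(Real.log g)) := by
              refine mul_le_mul (hσ _) ?_ (by positivity) zero_le_one
              exact mul_le_mul_of_nonneg_right h2 (Real.sqrt_nonneg _)
          _ = _ := one_mul _
      have h4 : 0 < √(Real.log g) := Real.sqrt_pos.2 hL
      have h5 := ht (g ^ n)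
      have h6 : √(Real.log g) / |X x0| * (1 + t (g ^ n)) ≤ n * √(Real.log g) := by
        nlinarith [h3, h5]
      have h7 : 1 + t (g ^ n) ≤ n * |X x0| := by
        have h8 : √(Real.log g) * (1 + t (g ^ n)) ≤ √(Real.log g) * (n * |X x0|) := by
          have h9 := mul_le_mul_of_nonneg_right h6 hx'.le
          have e1 : √(Real.log g) / |X x0| * (1 + t (g ^ n)) * |X x0| =
              √(Real.log g) * (1 + t (g ^ n)) := by field_simp
          rw [e1] at h9
          linarith
        exact le_of_mul_le_mul_left h8 h4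
      linarith
    have h2 : ((Finset.univ : Finset (Fin n → S)).filter
        fun f => |∑ i, X (f i)| ≤ t (g ^ n)) = ∅ := by
      rw [Finset.filter_eq_empty_iff]
      intro f _ hf
      have h3 : ∑ i, X (f i) = n * X x0 := by
        rw [Finset.sum_congr rfl fun i _ => hc (f i) x0, Finset.sum_const, Finset.card_univ,
          Fintype.card_fin, nsmul_eq_mul]
      rw [h3, abs_mul, Nat.abs_cast] at hf
      linarith
    rw [h2, Finset.card_empty, Nat.cast_zero]
    positivity

section groups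

variable {p : ℕ} [Fact p.Prime] {F : Type} [Field F] [IsAlgClosed F] [CharP F p]
  (red : integralClosure ℤ ℂ →+* F) {G : Type} [Group G] [Finite G]

/-- the two numbers of the block agree up to the factor `T` -/
def near (p : ℕ) (red : integralClosure ℤ ℂ →+* F) {G : Type} [Group G] (T : ℝ)
    (B : (G → F) → F) : Prop :=
  (numIrrBlock B : ℝ) ≤ T * numWts p red B ∧ (numWts p red B : ℝ) ≤ T * numIrrBlock B

theorem near_congr {T : ℝ} {B B' : (G → F) → F} (h : BEq B B') :
    near p red T B ↔ near p red T B' := by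
  unfold near
  rw [numIrrBlock_congr h, numWts_congr red h]

/-- the logarithm of the quotient of the two numbers -/
def XX (p : ℕ) (red : integralClosure ℤ ℂ →+* F) {G : Type} [Group G] (B : (G → F) → F) : ℝ :=
  if numWts p red B = 0 then 1 else Real.log (numIrrBlock B) - Real.log (numWts p red B)

theorem XX_ne {B : (G → F) → F} (hB : IsBlock B) (h : numIrrBlock B ≠ numWts p red B) :
    XX p red B ≠ 0 := by
  unfold XX
  split_ifs with h0
  · exact one_ne_zero
  · intro h1
    apply h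
    have h2 : Real.log (numIrrBlock B) = Real.log (numWts p red B) := sub_eq_zero.1 h1
    have h3 : (0 : ℝ) < numIrrBlock B := by exact_mod_cast numIrrBlock_pos hB
    have h4 : (0 : ℝ) < numWts p red B := by exact_mod_cast Nat.pos_of_ne_zero h0
    have h5 := Real.log_injOn_pos (Set.mem_Ioi.2 h3) (Set.mem_Ioi.2 h4) h2
    exact_mod_cast h5

/-- blocks of the direct power with nearly equal numbers -/
theorem near_sum {n : ℕ} {t : ℝ} (θ : Fin n → {φ : G → F // IsIrrTrace φ})
    (h : near p red (Real.exp t) (blkOf (tIrr θ))) :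
    |∑ i, XX p red (blkOf (θ i))| ≤ t := by
  obtain ⟨h1, h2⟩ := h
  rw [numIrrBlock_tens p θ, numWts_tens red θ] at h1 h2
  have hl : ∀ i, (0 : ℝ) < numIrrBlock (blkOf (θ i)) := fun i => by
    exact_mod_cast numIrrBlock_pos (blkOf_block (θ i))
  have hw : ∀ i, numWts p red (blkOf (θ i)) ≠ 0 := by
    intro i hi
    have h3 : ∏ i, numWts p red (blkOf (θ i)) = 0 := Finset.prod_eq_zero (Finset.mem_univ i) hi
    rw [h3, Nat.cast_zero, mul_zero] at h1
    have h4 : (0 : ℝ) < ((∏ i, numIrrBlock (blkOf (θ i)) : ℕ) : ℝ) := by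
      push_cast
      exact Finset.prod_pos fun i _ => hl i
    linarith
  have hw' : ∀ i, (0 : ℝ) < numWts p red (blkOf (θ i)) := fun i => by
    exact_mod_cast Nat.pos_of_ne_zero (hw i)
  have hsum : ∑ i, XX p red (blkOf (θ i)) =
      Real.log (∏ i, (numIrrBlock (blkOf (θ i)) : ℝ)) -
        Real.log (∏ i, (numWts p red (blkOf (θ i)) : ℝ)) := by
    rw [Real.log_prod (fun i _ => (hl i).ne'), Real.log_prod (fun i _ => (hw' i).ne'),
      ← Finset.sum_sub_distrib]
    refine Finset.sum_congr rfl fun i _ => ?_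
    unfold XX
    rw [if_neg (hw i)]
  have hL : (0 : ℝ) < ∏ i, (numIrrBlock (blkOf (θ i)) : ℝ) := Finset.prod_pos fun i _ => hl i
  have hW : (0 : ℝ) < ∏ i, (numWts p red (blkOf (θ i)) : ℝ) := Finset.prod_pos fun i _ => hw' i
  push_cast at h1 h2
  rw [hsum, abs_le]
  constructor
  · have h3 := Real.log_le_log hW h2
    rw [Real.log_mul (Real.exp_pos _).ne' hL.ne', Real.log_exp] at h3
    linarith
  · have h3 := Real.log_le_log hL h1
    rw [Real.log_mul (Real.exp_pos _).ne' hW.ne', Real.log_exp] at h3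
    linarith

/-- **A small share of the irreducible characters.** -/
theorem bawc_of_share (σ t : ℕ → ℝ) (hσ : ∀ m, σ m ≤ 1) (ht : ∀ m, 0 ≤ t m)
    (hlim : Tendsto (fun m : ℕ => σ m * √(Real.log m) / (1 + t m)) atTop atTop)
    (h : ∀ n : ℕ, σ (Nat.card G ^ n) * Nat.card {φ : (Fin n → G) → F // IsIrrTrace φ} ≤
      Nat.card {φ : {φ : (Fin n → G) → F // IsIrrTrace φ} //
        near p red (Real.exp (t (Nat.card G ^ n))) (blkOf φ)}) : BAWC p red G := by
  intro B hB
  change numIrrBlock B = numWts p red B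
  obtain ⟨φ0, hφ0⟩ := exists_irr hB
  rw [← numIrrBlock_congr hφ0, ← numWts_congr red hφ0]
  by_contra hne
  have hG : 2 ≤ Nat.card G := by
    by_contra hlt
    have h1 : Nat.card G = 1 := by
      have := Nat.card_pos (α := G)
      omega
    have : Subsingleton G := (Nat.card_eq_one_iff_unique.1 h1).1
    exact hne (triv_eq red (blkOf_block φ0))
  have : Fintype {φ : G → F // IsIrrTrace φ} := Fintype.ofFinite _
  obtain ⟨n, hn⟩ := amp (fun φ : {φ : G → F // IsIrrTrace φ} => XX p red (blkOf φ)) φ0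
    (XX_ne red (blkOf_block φ0) hne) (Nat.card G) hG σ t hσ ht hlim
  have h1 := h n
  have hc : Nat.card {φ : (Fin n → G) → F // IsIrrTrace φ} =
      Fintype.card {φ : G → F // IsIrrTrace φ} ^ n := by
    rw [← Nat.card_congr (Equiv.ofBijective _ (tIrr_bij (ι := Fin n) (G := G) (F := F) p)),
      Nat.card_fun, Nat.card_eq_fintype_card, Nat.card_eq_fintype_card, Fintype.card_fin]
  have h2 : Nat.card {φ : {φ : (Fin n → G) → F // IsIrrTrace φ} //
        near p red (Real.exp (t (Nat.card G ^ n))) (blkOf φ)} ≤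
      ((Finset.univ : Finset (Fin n → {φ : G → F // IsIrrTrace φ})).filter
        fun f => |∑ i, XX p red (blkOf (f i))| ≤ t (Nat.card G ^ n)).card := by
    rw [← Fintype.card_subtype, ← Nat.card_eq_fintype_card]
    refine Nat.card_le_card_of_injective (fun φ => ⟨(Equiv.ofBijective _
      (tIrr_bij (ι := Fin n) (G := G) (F := F) p)).symm φ.1, ?_⟩) ?_
    · have e1 : tIrr ((Equiv.ofBijective _ (tIrr_bij (ι := Fin n) (G := G) (F := F) p)).symm
          φ.1) = φ.1 := (Equiv.ofBijective _ (tIrr_bij p)).apply_symm_apply φ.1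
      refine near_sum red _ ?_
      rw [e1]
      exact φ.2
    · intro φ φ' hφ
      have h3 := congrArg Subtype.val hφ
      exact Subtype.ext ((Equiv.ofBijective _ (tIrr_bij p)).symm.injective h3)
  rw [hc] at h1
  have h3 : (Nat.card {φ : {φ : (Fin n → G) → F // IsIrrTrace φ} //
        near p red (Real.exp (t (Nat.card G ^ n))) (blkOf φ)} : ℝ) ≤
      (((Finset.univ : Finset (Fin n → {φ : G → F // IsIrrTrace φ})).filter
        fun f => |∑ i, XX p red (blkOf (f i))| ≤ t (Nat.card G ^ n)).card : ℝ) := by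
    exact_mod_cast h2
  push_cast at h1
  linarith

/-! ### blocks -/

/-- equality of blocks -/
def blkSetoid (F : Type) [Field F] (G : Type) [Group G] :
    Setoid {B : (G → F) → F // IsBlock B} where
  r B B' := ∀ f : G → F, IsClassFun f → B.1 f = B'.1 f
  iseqv := ⟨fun _ _ _ => rfl, fun h f hf => (h f hf).symm,
    fun h h' f hf => (h f hf).trans (h' f hf)⟩

/-- the set of the blocks of `G` -/
def Bl (F : Type) [Field F] (G : Type) [Group G] : Type := Quotient (blkSetoid F G)

/-- the block as a function -/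
def Bl.fn {F : Type} [Field F] {G : Type} [Group G] (b : Bl F G) : (G → F) → F :=
  (Quotient.out b).1

theorem Bl.blk {F : Type} [Field F] {G : Type} [Group G] (b : Bl F G) : IsBlock b.fn :=
  (Quotient.out b).2

/-- the class of a block -/
def Bl.mk {F : Type} [Field F] {G : Type} [Group G] {B : (G → F) → F} (hB : IsBlock B) :
    Bl F G := Quotient.mk (blkSetoid F G) ⟨B, hB⟩

omit [IsAlgClosed F] [CharP F p] [Finite G] in
theorem Bl.mk_fn {B : (G → F) → F} (hB : IsBlock B) : BEq (Bl.mk hB).fn B :=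
  Quotient.exact (Quotient.out_eq (Quotient.mk (blkSetoid F G) ⟨B, hB⟩))

omit [IsAlgClosed F] [CharP F p] [Finite G] in
theorem Bl.ext {b b' : Bl F G} (h : BEq b.fn b'.fn) : b = b' := by
  have h1 : Quotient.mk (blkSetoid F G) (Quotient.out b) =
      Quotient.mk (blkSetoid F G) (Quotient.out b') := Quotient.sound h
  exact (Quotient.out_eq b).symm.trans (h1.trans (Quotient.out_eq b'))

/-- an irreducible trace in the block -/
def Bl.irr (b : Bl F G) : {φ : G → F // IsIrrTrace φ} := (exists_irr b.blk).choose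

theorem Bl.irr_spec (b : Bl F G) : BEq (blkOf b.irr) b.fn := (exists_irr b.blk).choose_spec

instance : Finite (Bl F G) := by
  refine Finite.of_injective (fun b : Bl F G => b.irr) fun b b' h => Bl.ext ?_
  have h1 := b.irr_spec
  have h2 := b'.irr_spec
  have h3 : b.irr = b'.irr := h
  rw [h3] at h1
  exact h1.symm.trans h2

/-- the product of blocks -/
def Bl.pi {n : ℕ} (f : Fin n → Bl F G) : Bl F (Fin n → G) :=
  Bl.mk (blkOf_block (tIrr fun i => (f i).irr))

theorem Bl.pi_bij (p : ℕ) [Fact p.Prime] [CharP F p] (n : ℕ) :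
    Function.Bijective (Bl.pi : (Fin n → Bl F G) → Bl F (Fin n → G)) := by
  constructor
  · intro f f' h
    have h1 : BEq (blkOf (tIrr fun i => (f i).irr)) (blkOf (tIrr fun i => (f' i).irr)) := by
      have h2 := Bl.mk_fn (blkOf_block (tIrr fun i => (f i).irr))
      have h3 := Bl.mk_fn (blkOf_block (tIrr fun i => (f' i).irr))
      have h4 : Bl.mk (blkOf_block (tIrr fun i => (f i).irr)) =
          Bl.mk (blkOf_block (tIrr fun i => (f' i).irr)) := h
      rw [h4] at h2
      exact h2.symm.trans h3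
    rw [blk_tens_iff] at h1
    funext i
    exact Bl.ext ((f i).irr_spec.symm.trans ((h1 i).trans (f' i).irr_spec))
  · intro b
    obtain ⟨θ, h1, -⟩ := exists_mulOn p b.blk
    refine ⟨fun i => Bl.mk (blkOf_block (θ i)), Bl.ext ?_⟩
    have h2 := Bl.mk_fn (blkOf_block (tIrr fun i => (Bl.mk (blkOf_block (θ i))).irr))
    refine h2.trans (Pool.Agent.N85.WM.BEq.trans ?_ h1)
    rw [blk_tens_iff]
    intro i
    exact (Bl.irr_spec _).trans (Bl.mk_fn _)

/-- **A small share of the blocks.** -/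
theorem bawc_of_blocks (σ t : ℕ → ℝ) (hσ : ∀ m, σ m ≤ 1) (ht : ∀ m, 0 ≤ t m)
    (hlim : Tendsto (fun m : ℕ => σ m * √(Real.log m) / (1 + t m)) atTop atTop)
    (h : ∀ n : ℕ, σ (Nat.card G ^ n) * Nat.card (Bl F (Fin n → G)) ≤
      Nat.card {b : Bl F (Fin n → G) //
        near p red (Real.exp (t (Nat.card G ^ n))) b.fn}) : BAWC p red G := by
  intro B hB
  change numIrrBlock B = numWts p red B
  set b0 : Bl F G := Bl.mk hB with hb0
  have hφ0 : BEq b0.fn B := Bl.mk_fn hB
  rw [← numIrrBlock_congr hφ0, ← numWts_congr red hφ0]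
  by_contra hne
  have hG : 2 ≤ Nat.card G := by
    by_contra hlt
    have h1 : Nat.card G = 1 := by
      have := Nat.card_pos (α := G)
      omega
    have : Subsingleton G := (Nat.card_eq_one_iff_unique.1 h1).1
    exact hne (triv_eq red b0.blk)
  have : Fintype (Bl F G) := Fintype.ofFinite _
  obtain ⟨n, hn⟩ := amp (fun b : Bl F G => XX p red b.fn) b0
    (XX_ne red b0.blk hne) (Nat.card G) hG σ t hσ ht hlim
  have h1 := h n
  have hc : Nat.card (Bl F (Fin n → G)) = Fintype.card (Bl F G) ^ n := by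
    rw [← Nat.card_congr (Equiv.ofBijective _ (Bl.pi_bij (G := G) (F := F) p n)),
      Nat.card_fun, Nat.card_eq_fintype_card, Nat.card_eq_fintype_card, Fintype.card_fin]
  have h2 : Nat.card {b : Bl F (Fin n → G) //
        near p red (Real.exp (t (Nat.card G ^ n))) b.fn} ≤
      ((Finset.univ : Finset (Fin n → Bl F G)).filter
        fun f => |∑ i, XX p red (f i).fn| ≤ t (Nat.card G ^ n)).card := by
    rw [← Fintype.card_subtype, ← Nat.card_eq_fintype_card]
    refine Nat.card_le_card_of_injective (fun b => ⟨(Equiv.ofBijective _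
      (Bl.pi_bij (G := G) (F := F) p n)).symm b.1, ?_⟩) ?_
    · set f := (Equiv.ofBijective _ (Bl.pi_bij (G := G) (F := F) p n)).symm b.1 with hf
      have e1 : Bl.pi f = b.1 :=
        (Equiv.ofBijective _ (Bl.pi_bij (G := G) (F := F) p n)).apply_symm_apply b.1
      have e2 := b.2
      rw [← e1] at e2
      have e3 : near p red (Real.exp (t (Nat.card G ^ n)))
          (blkOf (tIrr fun i => (f i).irr)) :=
        (near_congr red (Bl.mk_fn (blkOf_block (tIrr fun i => (f i).irr)))).1 e2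
      have e4 := near_sum red _ e3
      have e5 : ∀ i, XX p red (blkOf (f i).irr) = XX p red (f i).fn := by
        intro i
        unfold XX
        rw [numIrrBlock_congr (f i).irr_spec, numWts_congr red (f i).irr_spec]
      rw [Finset.sum_congr rfl fun i _ => e5 i] at e4
      exact e4
    · intro φ φ' hφ
      have h3 := congrArg Subtype.val hφ
      exact Subtype.ext ((Equiv.ofBijective _ (Bl.pi_bij p n)).symm.injective h3)
  rw [hc] at h1
  have h3 : (Nat.card {b : Bl F (Fin n → G) //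
        near p red (Real.exp (t (Nat.card G ^ n))) b.fn} : ℝ) ≤
      (((Finset.univ : Finset (Fin n → Bl F G)).filter
        fun f => |∑ i, XX p red (f i).fn| ≤ t (Nat.card G ^ n)).card : ℝ) := by
    exact_mod_cast h2
  push_cast at h1
  linarith

/-- **All blocks, up to a factor `|G| ^ ε`.** -/
theorem bawc_of_eps (h : ∀ ε : ℝ, 0 < ε → ∃ N : ℕ, ∀ n : ℕ, N ≤ Nat.card G ^ n →
      ∀ B : ((Fin n → G) → F) → F, IsBlock B →
        near p red (((Nat.card G ^ n : ℕ) : ℝ) ^ ε) B) : BAWC p red G := by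
  intro B hB
  change numIrrBlock B = numWts p red B
  obtain ⟨φ, hφ⟩ := exists_irr hB
  rw [← numIrrBlock_congr hφ, ← numWts_congr red hφ]
  by_cases hG : 2 ≤ Nat.card G
  · have hg : (1 : ℝ) < Nat.card G := by exact_mod_cast hG
    have key : ∀ ε : ℝ, 0 < ε → near p red ((Nat.card G : ℝ) ^ ε) (blkOf φ) := by
      intro ε hε
      obtain ⟨N, hN⟩ := h ε hε
      have h1 : N ≤ Nat.card G ^ (N + 1) := by
        have h2 : N + 1 < 2 ^ (N + 1) := Nat.lt_two_pow_self
        have h3 : 2 ^ (N + 1) ≤ Nat.card G ^ (N + 1) := Nat.pow_le_pow_left hG _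
        omega
      obtain ⟨h2, h3⟩ := hN (N + 1) h1 (blkOf (tIrr fun _ => φ)) (blkOf_block _)
      rw [numIrrBlock_tens p, numWts_tens red, Finset.prod_const, Finset.prod_const,
        Finset.card_univ, Fintype.card_fin] at h2 h3
      have h4 : (((Nat.card G ^ (N + 1) : ℕ) : ℝ)) ^ ε = ((Nat.card G : ℝ) ^ ε) ^ (N + 1) := by
        rw [Nat.cast_pow, ← Real.rpow_natCast, ← Real.rpow_mul (by positivity),
          ← Real.rpow_natCast ((Nat.card G : ℝ) ^ ε), ← Real.rpow_mul (by positivity), mul_comm]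
      rw [h4] at h2 h3
      push_cast at h2 h3
      rw [← mul_pow] at h2 h3
      exact ⟨(pow_le_pow_iff_left₀ (by positivity) (by positivity) (Nat.succ_ne_zero N)).1 h2,
        (pow_le_pow_iff_left₀ (by positivity) (by positivity) (Nat.succ_ne_zero N)).1 h3⟩
    have hlim : ∀ c : ℝ, Tendsto (fun ε : ℝ => (Nat.card G : ℝ) ^ ε * c) (nhdsWithin 0 (Set.Ioi 0))
        (nhds c) := by
      intro c
      have h1 : Tendsto (fun ε : ℝ => (Nat.card G : ℝ) ^ ε) (nhds 0) (nhds 1) := by
        have h2 : Continuous fun ε : ℝ => (Nat.card G : ℝ) ^ ε :=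
          Real.continuous_const_rpow (by positivity)
        have h3 := h2.tendsto 0
        rwa [Real.rpow_zero] at h3
      have h2 := (h1.mul_const c).mono_left (nhdsWithin_le_nhds (s := Set.Ioi (0 : ℝ)))
      rwa [one_mul] at h2
    have h1 : (numIrrBlock (blkOf φ) : ℝ) ≤ numWts p red (blkOf φ) :=
      ge_of_tendsto (hlim _) (eventually_nhdsWithin_of_forall fun ε hε => (key ε hε).1)
    have h2 : (numWts p red (blkOf φ) : ℝ) ≤ numIrrBlock (blkOf φ) :=
      ge_of_tendsto (hlim _) (eventually_nhdsWithin_of_forall fun ε hε => (key ε hε).2)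
    have h3 := le_antisymm h1 h2
    exact_mod_cast h3
  · have h1 : Nat.card G = 1 := by
      have := Nat.card_pos (α := G)
      omega
    have : Subsingleton G := (Nat.card_eq_one_iff_unique.1 h1).1
    exact triv_eq red (blkOf_block φ)

end groups

end Pool.Agent.V7H23.AW
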